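import Mathlib
import Pool.Agent.Lib.helper29.Astral

set_option autoImplicit false

namespace Pool.Agent.Results.MP_b542c4_co.AstralRational

open Pool.Agent.Lib.H29.Astral

/-- There is an astral 4-configuration (24 points, 24 lines, symmetry group d_12) whose underlying
combinatorial configuration has a realization in the rational plane. -/
theorem result : ∃ (P : Fin (2 * 12) → ℂ) (L : Fin (2 * 12) → Set ℂ),
    IsAstral 2 12 P L ∧ HasRatRealization P L :=
  ⟨PP, LL, astral, ratReal⟩

end Pool.Agent.Results.MP_b542c4_co.AstralRational
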